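import Pool.Agent.Helper24.KD.Germ

/-!
# The numerical formula for one twist
-/

set_option autoImplicit false
set_option linter.unusedSectionVars false

open CategoryTheory Limits AlgebraicGeometry MvPolynomial Pool.Agent.Y116.UV
  Pool.Agent.Q282.UM Pool.Agent.Q282.UK Pool.Agent.Helper24.KZ Pool.Agent.Helper62.EC
  Pool.Agent.Helper62.DB

namespace Pool.Agent.Helper24.KD

universe v u

/-- The properties of the weight complexes with compact supports (Gillet and Soulé) over a field of
characteristic zero.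

* `tw_zero`, `tw_add`: the Tate twists;
* `iso`: isomorphic schemes have isomorphic weight complexes;
* `triangle`: the triangle `W U → W X → W Z → (W U)[1]` for a closed subscheme `Z` of `X` and its
  complement `U`;
* `bundle`: the weight complex of the affine bundle `Spec B[w_1, …, w_m] / (∑ f_l w_l - 1) → U` with
  fibre `𝔸^(m-1)`, where `U` is the complement of `f = 0` in `Spec B`, is the one of `U` twisted by
  `1 - m`;
* `projective`: `W(X)` is the motive `h(X)` in degree zero if `X` is smooth and projective;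
* `terms`: `W(X)` is given by a bounded complex whose terms are finite direct sums of motives `h(Y)`
  of smooth projective schemes `Y` of dimension at most the dimension of `X`. -/
structure IsWeightComplex {k : Type} [Field k] {C : Type u} [Category.{v} C] [Preadditive C]
    [HasZeroObject C] [HasBinaryBiproducts C] (D : Weights k C) : Prop where
  tw_zero : Nonempty (D.tw 0 ≅ 𝟭 C)
  tw_add : ∀ m n : ℤ, Nonempty (D.tw (m + n) ≅ D.tw m ⋙ D.tw n)
  iso : ∀ {X Y : Sch k}, FT True X → Nonempty (X ≅ Y) → Nonempty (D.W X ≅ D.W Y)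
  triangle : ∀ {Z X U : Sch k} (i : Z ⟶ X) (j : U ⟶ X), FT True X → IsTriple i j →
    IsDistinguished (D.W U) (D.W X) (D.W Z)
  bundle : ∀ (B : Type) [CommRing B] [Algebra k B] [Algebra.FiniteType k B] (m : ℕ)
    (f : Fin m → B) (U : Sch k) (j : U ⟶ aff k B), IsComplementOf f j →
    Nonempty (D.W (jouS f) ≅ onHK (D.tw (1 - m)) (D.W U))
  projective : ∀ X : Sch k, IsSmoothProjective X → Nonempty (D.W X ≅ inZero (D.h X))
  terms : ∀ X : Sch k, FT True X → ∀ N : ℕ, topologicalKrullDim X.left ≤ N →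
    ∃ K : CochainComplex C ℤ, Bdd K ∧ Nonempty (D.W X ≅ toHK K) ∧
      ∀ i, SumOf (fun M => ∃ Y : Sch k, IsSmoothProjective Y ∧
        topologicalKrullDim Y.left ≤ N ∧ Nonempty (D.h Y ≅ M)) (K.X i)

variable {C : Type u} [Category.{v} C] [Preadditive C] [HasBinaryBiproducts C] [HasZeroObject C]
  [HasFiniteBiproducts C] {A : Type*} [CommGroup A] {F : C ⥤ ModuleCat.{0} ℚ} [F.Additive]
  {f : C → A} {Γ : Subgroup (A × Multiplicative ℤ)} {k : Type} [Field k] {D : Weights k C}

variable (F f Γ D) in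
/-- The formula is true for the twist by `n` of the weight complex of `X`. -/
def At (n : ℤ) (X : Sch k) : Prop := Holds F f Γ (onHK (D.tw n) (D.W X))

section

variable (hf : Mult (fun _ : C => True) f) (hD : IsWeightComplex D)

include hD

lemma at_iso {n : ℤ} {X Y : Sch k} (e : Nonempty (D.W X ≅ D.W Y)) (h : At F f Γ D n X) :
    At F f Γ D n Y := by
  obtain ⟨e⟩ := e
  exact h.iso ⟨((D.tw n).mapHomotopyCategory (ComplexShape.up ℤ)).mapIso e⟩

/-- shifts -/
lemma at_twist {X Y : Sch k} {m : ℤ} (e : Nonempty (D.W X ≅ onHK (D.tw m) (D.W Y))) (n : ℤ) :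
    At F f Γ D n X ↔ At F f Γ D (m + n) Y := by
  obtain ⟨e⟩ := e
  obtain ⟨e1⟩ := hD.tw_add m n
  obtain ⟨e2⟩ := onHK_comp e1 (D.W Y)
  have h1 : onHK (D.tw n) (D.W X) ≅ onHK (D.tw (m + n)) (D.W Y) :=
    ((D.tw n).mapHomotopyCategory (ComplexShape.up ℤ)).mapIso e ≪≫ e2.symm
  exact ⟨fun h => h.iso ⟨h1⟩, fun h => h.iso ⟨h1.symm⟩⟩

include hf

/-- The closure properties. -/
theorem at_cls (n : ℤ) : Cls True fun X : Sch k => At F f Γ D n X where
  iso hX e h := at_iso hD (hD.iso hX e) h
  total i j h ht hZ hU :=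
    dist_mid hf (onHK_triangle (D.tw n) (hD.triangle i j h ht)) hU hZ
  opened i j h ht hZ hX :=
    dist_left hf (onHK_triangle (D.tw n) (hD.triangle i j h ht)) hX hZ
  closed i j h ht hX hU :=
    dist_right hf (onHK_triangle (D.tw n) (hD.triangle i j h ht)) hU hX

omit hf in
/-- Affine bundles. -/
lemma at_bundle {B : Type} [CommRing B] [Algebra k B] [Algebra.FiniteType k B] {m : ℕ}
    {g : Fin m → B} {U : Sch k} {j : U ⟶ aff k B} (hj : IsComplementOf g j) (n : ℤ) :
    At F f Γ D (n + (m - 1)) (jouS g) ↔ At F f Γ D n U := by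
  rw [at_twist hD (hD.bundle B m g U j hj)]
  rw [show (1 - (m : ℤ)) + (n + (m - 1)) = n by ring]

omit hf hD in
lemma compl_id (B : Type) [CommRing B] [Algebra k B] (n : ℕ) :
    IsComplementOf (k := k) (f1 B n) (𝟙 (aff k B)) := by
  have hr : Set.range (𝟙 (aff k B) : aff k B ⟶ aff k B).left =
      {x : PrimeSpectrum B | ∃ l, f1 B n l ∉ x.asIdeal} := by
    have h1 : Set.range (𝟙 (aff k B) : aff k B ⟶ aff k B).left = Set.univ := Set.range_id
    have h2 : {x : PrimeSpectrum B | ∃ l, f1 B n l ∉ x.asIdeal} = Set.univ := by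
      rw [Set.eq_univ_iff_forall]
      intro x
      exact ⟨0, fun h => x.isPrime.ne_top ((Ideal.eq_top_iff_one _).mpr h)⟩
    exact h1.trans h2.symm
  exact ⟨inferInstanceAs (IsOpenImmersion (𝟙 (aff k B).left)), hr⟩

/-- Products with affine spaces. -/
lemma at_poly {B : Type} [CommRing B] [Algebra k B] [Algebra.FiniteType k B] (r : ℕ) (n : ℤ) :
    At F f Γ D (n + r) (aff k (MvPolynomial (Fin r) B)) ↔ At F f Γ D n (aff k B) := by
  have h := at_bundle (F := F) (f := f) (Γ := Γ) hD (compl_id B r) n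
  rw [← h]
  have e : Jou (f1 B r) ≃ₐ[k] MvPolynomial (Fin r) B := (jouOne B r).restrictScalars k
  have h2 : n + (((r + 1 : ℕ) : ℤ) - 1) = n + r := by push_cast; ring
  rw [h2]
  have : Algebra.FiniteType k (Jou (f1 B r)) :=
    Algebra.FiniteType.trans (S := B) inferInstance inferInstance
  constructor
  · intro h3
    have : Algebra.FiniteType k (MvPolynomial (Fin r) B) :=
      Algebra.FiniteType.trans (S := B) inferInstance inferInstance
    exact Pool.Agent.Helper62.EC.iso_alg (at_cls hf hD (n + r)) e.symm h3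
  · intro h3
    exact Pool.Agent.Helper62.EC.iso_alg (at_cls hf hD (n + r)) e h3

/-- Products with the affine line. -/
lemma at_line {B : Type} [CommRing B] [Algebra k B] [Algebra.FiniteType k B] (n : ℤ) :
    At F f Γ D (n + 1) (aff k (Polynomial B)) ↔ At F f Γ D n (aff k B) := by
  rw [← at_poly hf hD 1 n]
  have e : MvPolynomial (Fin 1) B ≃ₐ[k] Polynomial B :=
    (MvPolynomial.uniqueAlgEquiv B (Fin 1)).restrictScalars k
  have h2 : n + ((1 : ℕ) : ℤ) = n + 1 := by norm_num
  rw [h2]
  have h4 : Algebra.FiniteType k (MvPolynomial (Fin 1) B) :=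
    Algebra.FiniteType.trans (S := B) inferInstance inferInstance
  have h5 : Algebra.FiniteType k (Polynomial B) := Algebra.FiniteType.equiv h4 e
  constructor
  · intro h3
    exact Pool.Agent.Helper62.EC.iso_alg (at_cls hf hD (n + 1)) e.symm h3
  · intro h3
    exact Pool.Agent.Helper62.EC.iso_alg (at_cls hf hD (n + 1)) e h3

/-- The double cover `t ^ 2 - t = y g` and the hypersurface `g = 0`. -/
theorem dbl_at {B : Type} [CommRing B] [Algebra k B] [Algebra.FiniteType k B] (g : B) (n : ℤ)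
    (hB : At F f Γ D n (aff k B)) :
    At F f Γ D (n + 1) (aff k (Db g)) ↔ At F f Γ D n (aff k (B ⧸ Ideal.span {g})) := by
  rw [dbl_iff (at_cls hf hD (n + 1)) g ((at_line hf hD n).mpr hB), at_line hf hD n]

/-- From smooth projective schemes to all schemes, one twist and one dimension at a time. -/
theorem gen {n : ℤ} {N : ℕ} (h : ∀ Y : Sch k, IsSmoothProjective Y →
    topologicalKrullDim Y.left ≤ N → Ob F f Γ ((D.tw n).obj (D.h Y))) (X : Sch k)
    (hX : FT True X) (hN : topologicalKrullDim X.left ≤ N) : At F f Γ D n X := by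
  obtain ⟨K, hb, ⟨e⟩, hK⟩ := hD.terms X hX N hN
  refine Holds.iso ⟨((D.tw n).mapHomotopyCategory (ComplexShape.up ℤ)).mapIso e.symm⟩ ?_
  change Holds F f Γ (toHK (((D.tw n).mapHomologicalComplex (ComplexShape.up ℤ)).obj K))
  refine Holds.of_terms hf ?_ fun i => ?_
  · obtain ⟨a, b, hz⟩ := hb
    exact ⟨a, b, fun i hi => (D.tw n).map_isZero (hz i hi)⟩
  · change Ob F f Γ ((D.tw n).obj (K.X i))
    refine ob_twist_sum hf (D.tw n) ?_ (hK i)
    rintro M ⟨Y, h1, h2, ⟨e⟩⟩
    exact Ob.iso (fun e => hf.val_iso e trivial) ⟨(D.tw n).mapIso e⟩ (h Y h1 h2)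

lemma to_ob {n : ℤ} {X : Sch k} (hX : IsSmoothProjective X) (h : At F f Γ D n X) :
    Ob F f Γ ((D.tw n).obj (D.h X)) := of_inZero hf (hD.projective X hX) h

variable (hz : ∀ Y : Sch k, IsSmoothProjective Y → topologicalKrullDim Y.left ≤ (0 : ℕ) →
  ∀ n : ℤ, Ob F f Γ ((D.tw n).obj (D.h Y)))

include hz

lemma at_point (n : ℤ) : At F f Γ D n (aff k k) := by
  refine gen hf hD (fun Y hY hd => hz Y hY hd n) (aff k k) (ft_aff True) ?_
  rw [Pool.Agent.Z125.UN.topDim_aff, ringKrullDim_eq_zero_of_field]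
  exact le_rfl

lemma at_space (n : ℤ) (r : ℕ) : At F f Γ D n (aff k (MvPolynomial (Fin r) k)) := by
  have h := (at_poly hf hD (B := k) r (n - r)).mpr (at_point hf hD hz _)
  rwa [sub_add_cancel] at h

/-- The double cover and the hypersurface. -/
theorem dbl_hyp (n : ℤ) {r : ℕ} (g : MvPolynomial (Fin r) k) :
    At F f Γ D (n + 1) (aff k (Db g)) ↔
      At F f Γ D n (aff k (MvPolynomial (Fin r) k ⧸ Ideal.span {g})) :=
  dbl_at hf hD g n (at_space hf hD hz n r)

/-- **One twist and one dimension.** -/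
theorem dim_at [PerfectField k] (n : ℤ) (d : ℕ) :
    (∀ Y : Sch k, IsSmoothProjective Y → topologicalKrullDim Y.left ≤ d →
      Ob F f Γ ((D.tw n).obj (D.h Y))) ↔
      ∀ g : MvPolynomial (Fin (d + 1)) k, At F f Γ D (n + 1) (aff k (Db g)) := by
  constructor
  · intro h g
    rw [dbl_hyp hf hD hz]
    by_cases hg : Ideal.span {g} = ⊥
    · rw [hg]
      exact Pool.Agent.Helper62.EC.iso_alg (at_cls hf hD n)
        (AlgEquiv.quotientBot k _).symm (at_space hf hD hz n _)
    · refine gen hf hD h _ (ft_aff True) ?_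
      rw [Pool.Agent.Z125.UN.topDim_aff]
      exact Pool.Agent.Z125.UN.dim_quot _ hg
  · intro h Y hY hd
    refine to_ob hf hD hY ?_
    exact Pool.Agent.Helper19.UA.of_hyp (at_cls hf hD n) (at_space hf hD hz n _)
      (fun g => (dbl_hyp hf hD hz n g).mp (h g)) Y (ft_projective hY) hd

/-- All schemes from the double covers. -/
theorem all_of_dbl (n : ℤ) (h : ∀ (r : ℕ) (g : MvPolynomial (Fin r) k),
    At F f Γ D (n + 1) (aff k (Db g))) (X : Sch k) (hX : FT True X) : At F f Γ D n X := by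
  refine of_affine' (P := fun X => At F f Γ D n X) ((at_cls hf hD n).iso)
    ((at_cls hf hD n).total) (fun B _ _ _ => ?_) X hX
  obtain ⟨r, φ, hφ⟩ := Algebra.FiniteType.iff_quotient_mvPolynomial''.mp
    (inferInstance : Algebra.FiniteType k B)
  exact Pool.Agent.Helper19.UA.of_surj (at_cls hf hD n)
    (Pool.Agent.Helper19.UA.closed_all (at_cls hf hD n) (at_space hf hD hz n r)
      (fun g => (dbl_hyp hf hD hz n g).mp (h r g))) φ hφ

end

end Pool.Agent.Helper24.KD
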