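import Pool.Agent.Helper24.KZ.Motives
import Pool.Agent.Helper19.UA.Base
import Pool.Agent.Helper62.DB.Two0

/-!
# One twist and one dimension at a time
-/

set_option autoImplicit false
set_option linter.unusedSectionVars false

open CategoryTheory Limits AlgebraicGeometry Pool.Agent.Y116.UV Pool.Agent.Z125.UN
  Pool.Agent.Q282.UM Pool.Agent.Q282.UK Pool.Agent.Helper24.KZ

namespace Pool.Agent.Helper24.KD

universe v u

/-- The standard properties of the Euler products.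

* `factor_iso`, `factor_sum`: the factors of isomorphic motives, and of direct sums;
* `converges`: the Euler product converges and is not zero in some half plane. -/
structure IsEuler {k : Type} [Field k] {C : Type u} [Category.{v} C] [Preadditive C]
    [HasBinaryBiproducts C] (D : MotivesL k C) : Prop where
  factor_iso : ∀ (v : D.Pl) (M N : C), Nonempty (M ≅ N) → D.P v M = D.P v N
  factor_sum : ∀ (v : D.Pl) (M N : C), D.P v (M ⊞ N) = D.P v M * D.P v N
  converges : ∀ M : C, ∃ σ : ℝ, ∀ s : ℂ, σ < s.re →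
    Multipliable (fun v => ((D.P v M).eval ((D.q v : ℂ) ^ (-s)))⁻¹) ∧ D.L M s ≠ 0

section germs

variable {k : Type} [Field k] {C : Type u} [Category.{v} C] [Preadditive C] [HasZeroObject C]
  [HasBinaryBiproducts C] {D : MotivesL k C} (hD : IsEuler D)

/-- The germ of the `L`-function. -/
noncomputable def fL (M : C) : Gmˣ where
  val := (D.L M : Gm)
  inv := ((D.L M)⁻¹ : ℂ → ℂ)
  val_inv := by
    change ((D.L M * (D.L M)⁻¹ : ℂ → ℂ) : Gm) = ((1 : ℂ → ℂ) : Gm)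
    rw [germ_eq]
    obtain ⟨σ, h⟩ := hD.converges M
    exact ⟨σ, fun s hs => mul_inv_cancel₀ (h s hs).2⟩
  inv_val := by
    change (((D.L M)⁻¹ * D.L M : ℂ → ℂ) : Gm) = ((1 : ℂ → ℂ) : Gm)
    rw [germ_eq]
    obtain ⟨σ, h⟩ := hD.converges M
    exact ⟨σ, fun s hs => inv_mul_cancel₀ (h s hs).2⟩

lemma fL_mult : Mult (fun _ : C => True) (fL hD) where
  summand _ _ := trivial
  zero _ _ := trivial
  sum _ _ _ _ := trivial
  val_iso {M N} e _ := by
    have h1 : D.L M = D.L N := by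
      funext s
      unfold MotivesL.L
      refine tprod_congr fun v => ?_
      rw [hD.factor_iso v M N e]
    apply Units.ext
    change (D.L M : Gm) = (D.L N : Gm)
    rw [h1]
  val_sum M N _ _ := by
    apply Units.ext
    change (D.L (M ⊞ N) : Gm) = ((D.L M * D.L N : ℂ → ℂ) : Gm)
    rw [germ_eq]
    obtain ⟨σ, h⟩ := hD.converges M
    obtain ⟨τ, h'⟩ := hD.converges N
    refine ⟨max σ τ, fun s hs => ?_⟩
    have h1 := (h s (lt_of_le_of_lt (le_max_left _ _) hs)).1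
    have h2 := (h' s (lt_of_le_of_lt (le_max_right _ _) hs)).1
    change D.L (M ⊞ N) s = D.L M s * D.L N s
    unfold MotivesL.L
    rw [← h1.tprod_mul h2]
    refine tprod_congr fun v => ?_
    rw [hD.factor_sum, Polynomial.eval_mul, mul_inv]

lemma ob_iff (M : C) : Ob D.cyc (fL hD) Gam M ↔ BB D M := by
  constructor
  · rintro ⟨h1, F, h2, h3, h4⟩
    exact ⟨F, ⟨germ_eq.mp h2, h3⟩, h1, h4⟩
  · rintro ⟨F, ⟨h2, h3⟩, h1, h4⟩
    exact ⟨h1, F, germ_eq.mpr h2, h3, h4⟩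

lemma fL_zpow (M : C) (ε : ℤˣ) :
    ((fL hD M ^ (ε : ℤ) : Gmˣ) : Gm) = ((fun s => D.L M s ^ (ε : ℤ) : ℂ → ℂ) : Gm) := by
  rcases Int.units_eq_one_or ε with rfl | rfl
  · simp only [Units.val_one, zpow_one]
    rfl
  · simp only [Units.val_neg, Units.val_one, zpow_neg, zpow_one]
    rfl

lemma euler_germ {L : CochainComplex C ℤ} {a b : ℤ}
    (hz : ∀ i, (i < a ∨ b < i) → IsZero (L.X i)) :
    ((euler (fL hD) L : Gmˣ) : Gm) =
      ((fun s => ∏ i ∈ Finset.Icc a b, D.L (L.X i) s ^ ((i.negOnePow : ℤˣ) : ℤ) : ℂ → ℂ) : Gm) := by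
  have h3 : euler (fL hD) L = ∏ i ∈ Finset.Icc a b, fL hD (L.X i) ^ ((i.negOnePow : ℤˣ) : ℤ) :=
    finprod_eq_prod_of_mulSupport_subset _ (mulSupport_sub (fL_mult hD) hz)
  rw [h3, Units.coe_prod]
  have h4 : (fun s => ∏ i ∈ Finset.Icc a b, D.L (L.X i) s ^ ((i.negOnePow : ℤˣ) : ℤ) : ℂ → ℂ) =
      ∏ i ∈ Finset.Icc a b, (fun s => D.L (L.X i) s ^ ((i.negOnePow : ℤˣ) : ℤ) : ℂ → ℂ) := by
    funext s
    rw [Finset.prod_apply]
  rw [h4]
  change _ = Filter.Germ.coeMulHom (Filter.comap Complex.re Filter.atTop) (∏ i ∈ Finset.Icc a b,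
    (fun s => D.L (L.X i) s ^ ((i.negOnePow : ℤˣ) : ℤ) : ℂ → ℂ))
  rw [map_prod]
  refine Finset.prod_congr rfl fun i _ => ?_
  exact fL_zpow hD _ _

lemma holds_iff (K : HK C) : Holds D.cyc (fL hD) Gam K ↔ Formula D K := by
  unfold Formula
  rw [alt_hcyc, ← and_assoc, ← rankOK_iff]
  constructor
  · rintro ⟨h1, g, ⟨L, ⟨a, b, hz⟩, -, h2, rfl⟩, F, h3, h4, h5⟩
    refine ⟨h1, L, a, b, F, hz, h2, ⟨?_, h4⟩, h5⟩
    rw [← germ_eq, h3]
    exact euler_germ hD hz
  · rintro ⟨h1, L, a, b, F, hz, h2, ⟨h3, h4⟩, h5⟩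
    refine ⟨h1, _, ⟨L, ⟨a, b, hz⟩, fun _ => trivial, h2, rfl⟩, F, ?_, h4, h5⟩
    change (F : Gm) = ((euler (fL hD) L : Gmˣ) : Gm)
    rw [euler_germ hD hz, germ_eq]
    exact h3

end germs

end Pool.Agent.Helper24.KD
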